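import Pool.Agent.Q39.KZ.Base

/-!
Project KZ (helper18), job PU: products of small control primes.
-/

set_option autoImplicit false

namespace Pool.Agent.Q39.KZ

open Finset Filter Topology MeasureTheory
open scoped Classical
open Pool.Agent.W76.MO (hh nc cell lp Rough hh_pos nc_mul cell_loc)
open Q236.CM (LP LP_one LP_mul LP_prime LP_nonneg LP_le LP_pow LP_mul_fun LP_div)
open Pool.Agent.Q18.KZ
open Pool.Agent.Q222.KZ (r2 r2n r2n' r2pos r2mono hh_le hh_le_half hh_ge E_half mem_cell)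

theorem list_split (m : ℝ) (L : List ℝ) : ∀ (t : ℝ), (∀ a ∈ L, a ≤ m) → 0 ≤ m → 0 ≤ t → t ≤ L.sum →
    ∃ L1 L2 : List ℝ, L = L1 ++ L2 ∧ t ≤ L1.sum ∧ L1.sum ≤ t + m := by
  induction L with
  | nil =>
    intro t _ h0 ht h
    refine ⟨[], [], rfl, h, ?_⟩
    simp only [List.sum_nil]
    linarith
  | cons a L ih =>
    intro t hm h0 ht h
    by_cases hta : t ≤ a
    · refine ⟨[a], L, rfl, by simpa using hta, ?_⟩
      have := hm a List.mem_cons_self
      simp only [List.sum_cons, List.sum_nil]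
      linarith
    · push Not at hta
      rw [List.sum_cons] at h
      obtain ⟨L1, L2, e, h1, h2⟩ := ih (t - a) (fun b hb => hm b (List.mem_cons_of_mem a hb)) h0 (by linarith)
        (by linarith)
      refine ⟨a :: L1, L2, by rw [e]; rfl, ?_, ?_⟩
      · rw [List.sum_cons]
        linarith
      · rw [List.sum_cons]
        linarith

theorem sum_le_prod (L : List ℝ) (h2 : ∀ a ∈ L, 2 ≤ a) (hne : L ≠ []) : L.sum ≤ L.prod ∧ 2 ≤ L.sum := by
  induction L with
  | nil => exact absurd rfl hne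
  | cons a L ih =>
    have ha := h2 a List.mem_cons_self
    by_cases hL : L = []
    · subst hL
      simpa using ha
    · obtain ⟨h3, h4⟩ := ih (fun b hb => h2 b (List.mem_cons_of_mem a hb)) hL
      rw [List.sum_cons, List.prod_cons]
      constructor
      · nlinarith
      · linarith

theorem prod_lower (L : List ℝ) (i : ℝ) (hi : 0 < i) (h2 : ∀ a ∈ L, 2 ≤ a) (hm : ∀ a ∈ L, a ≤ 0.6 * i)
    (hs : 0.85 * i ≤ L.sum) : 0.01 * i ^ 2 ≤ L.prod := by
  obtain ⟨L1, L2, rfl, h3, h4⟩ := list_split (0.6 * i) L (0.2 * i) hm (by linarith) (by linarith) (by linarith)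
  rw [List.sum_append] at hs
  rw [List.prod_append]
  have n1 : L1 ≠ [] := by
    rintro rfl
    simp only [List.sum_nil] at h3
    linarith
  have n2 : L2 ≠ [] := by
    rintro rfl
    simp only [List.sum_nil] at hs
    linarith
  have h5 := sum_le_prod L1 (fun a ha => h2 a (List.mem_append_left _ ha)) n1
  have h6 := sum_le_prod L2 (fun a ha => h2 a (List.mem_append_right _ ha)) n2
  have h7 : 0.05 * i ≤ L2.sum := by linarith
  calc 0.01 * i ^ 2 = (0.2 * i) * (0.05 * i) := by ring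
    _ ≤ L1.prod * L2.prod := mul_le_mul (h3.trans h5.1) (h7.trans h6.1) (by linarith) (by linarith)

theorem LP_inv_pow (s : ℕ → ℝ) (k n : ℕ) : LP (fun p => ((s p) ^ k)⁻¹) n = ((LP s n) ^ k)⁻¹ := by
  unfold LP
  induction n.primeFactorsList with
  | nil => simp
  | cons a l ih => rw [List.map_cons, List.prod_cons, ih, List.map_cons, List.prod_cons, mul_pow, mul_inv]

theorem sum_logb (L : List ℕ) (h : ∀ p ∈ L, p ≠ 0) :
    (L.map (fun p : ℕ => Real.logb 2 p)).sum = Real.logb 2 (L.prod : ℕ) := by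
  induction L with
  | nil => simp
  | cons a L ih =>
    have ha := h a List.mem_cons_self
    have hL : L.prod ≠ 0 := by
      intro h0
      rw [List.prod_eq_zero_iff] at h0
      exact h 0 (List.mem_cons_of_mem a h0) rfl
    rw [List.map_cons, List.sum_cons, ih fun p hp => h p (List.mem_cons_of_mem a hp), List.prod_cons, Nat.cast_mul,
      Real.logb_mul (by exact_mod_cast ha) (by exact_mod_cast hL)]

theorem sum_map_le {L : List ℕ} (f g : ℕ → ℝ) (h : ∀ p ∈ L, f p ≤ g p) : (L.map f).sum ≤ (L.map g).sum := by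
  induction L with
  | nil => simp
  | cons a L ih =>
    rw [List.map_cons, List.sum_cons, List.map_cons, List.sum_cons]
    exact add_le_add (h a List.mem_cons_self) (ih fun p hp => h p (List.mem_cons_of_mem a hp))

theorem sum_map_mul (L : List ℕ) (c : ℝ) (f : ℕ → ℝ) : (L.map (fun p => c * f p)).sum = c * (L.map f).sum := by
  induction L with
  | nil => simp
  | cons a L ih => rw [List.map_cons, List.sum_cons, ih, List.map_cons, List.sum_cons, mul_add]

theorem logb_two_rpow (x : ℝ) : Real.logb 2 ((2 : ℝ) ^ x) = x := Real.logb_rpow two_pos (by norm_num)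

/-- the core estimate -/
theorem PU_core (j i n : ℕ) (hj : 17 ≤ j) (hji : j ≤ i) (hn : (2 : ℝ) ^ (0.9 * (i : ℝ)) ≤ n)
    (h1 : ∀ p : ℕ, p.Prime → p ∣ n → 2 ^ j < p) (h2 : ∀ p : ℕ, p.Prime → p ∣ n → (p : ℝ) ≤ (2 : ℝ) ^ (3 / 5 * (i : ℝ))) :
    0.01 * (i : ℝ) ^ 2 ≤ LP (fun p => (KEnv.sc p : ℝ)) n := by
  have hi0 : (0 : ℝ) < i := by
    have : 0 < i := by omega
    exact_mod_cast this
  have hn0 : n ≠ 0 := by
    rintro rfl
    have := r2pos (0.9 * (i : ℝ))
    rw [Nat.cast_zero] at hn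
    linarith
  have hjR : (17 : ℝ) ≤ j := by exact_mod_cast hj
  have key : ∀ p : ℕ, p.Prime → p ∣ n → j ≤ KEnv.sc p ∧ (KEnv.sc p : ℝ) ≤ 0.6 * i ∧
      Real.logb 2 p ≤ (1 + 1 / (j : ℝ)) * KEnv.sc p := by
    intro p hp hpn
    have h3 := h1 p hp hpn
    have h4 : p - 1 ≠ 0 := by
      have := Nat.one_le_two_pow (n := j)
      omega
    have h5 : j ≤ KEnv.sc p := by
      unfold KEnv.sc
      exact (Nat.le_log_iff_pow_le one_lt_two h4).2 (by omega)
    refine ⟨h5, ?_, ?_⟩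
    · have h6 : 2 ^ KEnv.sc p ≤ p := (Nat.pow_log_le_self 2 h4).trans (Nat.sub_le p 1)
      have h7 : (2 : ℝ) ^ (KEnv.sc p : ℝ) ≤ (2 : ℝ) ^ (3 / 5 * (i : ℝ)) := by
        rw [Real.rpow_natCast]
        refine le_trans ?_ (h2 p hp hpn)
        exact_mod_cast h6
      have h8 := (Real.rpow_le_rpow_left_iff one_lt_two).1 h7
      linarith
    · have h6 : p ≤ 2 ^ (KEnv.sc p + 1) := by
        have := Nat.lt_pow_succ_log_self one_lt_two (p - 1)
        unfold KEnv.sc
        omega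
      have h7 : Real.logb 2 p ≤ (KEnv.sc p : ℝ) + 1 := by
        have h8 : (p : ℝ) ≤ (2 : ℝ) ^ ((KEnv.sc p : ℝ) + 1) := by
          have h9 : ((p : ℕ) : ℝ) ≤ ((2 ^ (KEnv.sc p + 1) : ℕ) : ℝ) := by exact_mod_cast h6
          rw [r2n] at h9
          push_cast at h9
          exact h9
        have h10 := Real.logb_le_logb_of_le one_lt_two (by exact_mod_cast hp.pos) h8
        rwa [logb_two_rpow] at h10
      have h8 : (j : ℝ) ≤ KEnv.sc p := by exact_mod_cast h5
      have h9 : (1 : ℝ) ≤ 1 / (j : ℝ) * KEnv.sc p := by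
        rw [one_div, inv_mul_eq_div, le_div_iff₀ (by linarith)]
        linarith
      linarith
  have hmem : ∀ p ∈ n.primeFactorsList, p.Prime ∧ p ∣ n := fun p hp =>
    ⟨Nat.prime_of_mem_primeFactorsList hp, Nat.dvd_of_mem_primeFactorsList hp⟩
  have hsum : 0.85 * (i : ℝ) ≤ (n.primeFactorsList.map (fun p => (KEnv.sc p : ℝ))).sum := by
    have h3 : Real.logb 2 n = (n.primeFactorsList.map (fun p : ℕ => Real.logb 2 p)).sum := by
      rw [sum_logb _ (fun p hp => (hmem p hp).1.ne_zero), Nat.prod_primeFactorsList hn0]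
    have h4 : 0.9 * (i : ℝ) ≤ Real.logb 2 n := by
      have := Real.logb_le_logb_of_le one_lt_two (r2pos _) hn
      rwa [logb_two_rpow] at this
    have h5 : (n.primeFactorsList.map (fun p : ℕ => Real.logb 2 p)).sum ≤
        (1 + 1 / (j : ℝ)) * (n.primeFactorsList.map (fun p => (KEnv.sc p : ℝ))).sum := by
      rw [← sum_map_mul]
      exact sum_map_le _ _ fun p hp => (key p (hmem p hp).1 (hmem p hp).2).2.2
    have h6 : 1 / (j : ℝ) ≤ 1 / 17 := one_div_le_one_div_of_le (by norm_num) hjR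
    have h7 : 0 ≤ (n.primeFactorsList.map (fun p => (KEnv.sc p : ℝ))).sum := by
      apply List.sum_nonneg
      intro x hx
      obtain ⟨p, -, rfl⟩ := List.mem_map.1 hx
      positivity
    have h8 : 0.9 * (i : ℝ) ≤ (1 + 1 / 17) * (n.primeFactorsList.map (fun p => (KEnv.sc p : ℝ))).sum := by
      refine h4.trans ((h3 ▸ h5).trans ?_)
      exact mul_le_mul_of_nonneg_right (by linarith) h7
    linarith
  unfold LP
  refine prod_lower _ _ hi0 ?_ ?_ hsum
  · intro a ha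
    obtain ⟨p, hp, rfl⟩ := List.mem_map.1 ha
    have h3 := (key p (hmem p hp).1 (hmem p hp).2).1
    have h4 : 2 ≤ KEnv.sc p := by omega
    exact_mod_cast h4
  · intro a ha
    obtain ⟨p, hp, rfl⟩ := List.mem_map.1 ha
    exact (key p (hmem p hp).1 (hmem p hp).2).2.1

/-- **KZ-PU** -/
theorem t_PU (h1 : S_DG) : S_PU := by
  intro E c₀ hc₀
  obtain ⟨J₀, hJ₀⟩ := exists_nat_ge c₀
  refine KZAll.imp (h1 E) 1 one_pos (max 17 (max J₀ (10 ^ 19))) ?_
  rintro η j V - - hj - hDG i n hi hn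
  have hj17 : 17 ≤ j := (le_max_left _ _).trans hj
  have hjJ : J₀ ≤ j := ((le_max_left _ _).trans (le_max_right _ _)).trans hj
  have hj19 : 10 ^ 19 ≤ j := ((le_max_right _ _).trans (le_max_right _ _)).trans hj
  have hn0 : n ≠ 0 := by
    rintro rfl
    have := r2pos (0.9 * (i : ℝ))
    rw [Nat.cast_zero] at hn
    linarith
  have hrhs : 0 ≤ (n : ℝ) ^ (-1 + E.δ / 2) * (i : ℝ) ^ (-(70 : ℝ)) := by positivity
  by_cases hz : ∃ p : ℕ, p.Prime ∧ p ∣ n ∧ gus E j i p = 0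
  · obtain ⟨p, hp, hpn, h0⟩ := hz
    rw [LP_div _ hn0 hp hpn, h0, mul_zero, zero_mul]
    exact hrhs
  · push Not at hz
    have hs : ∀ p : ℕ, p.Prime → p ∣ n → (p : ℝ) ≤ (2 : ℝ) ^ (3 / 5 * (i : ℝ)) ∧ gus E j i p = E.gu j p ∧ E.gu j p ≠ 0 := by
      intro p hp hpn
      have h2 := hz p hp hpn
      unfold gus at h2 ⊢
      by_cases h3 : (p : ℝ) ≤ (2 : ℝ) ^ (3 / 5 * (i : ℝ))
      · rw [if_pos h3] at h2 ⊢
        exact ⟨h3, rfl, h2⟩
      · rw [if_neg h3] at h2
        exact absurd rfl h2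
    have hgu : ∀ p : ℕ, p.Prime → p ∣ n → 2 ^ j < p ∧ E.gu j p ≤ (p : ℝ) ^ (-1 + E.δ / 2) * (KEnv.sc p : ℝ) ^ (-(38 : ℝ)) :=
      fun p hp hpn => (hDG p hp).2.2.2.2.1 (hs p hp hpn).2.2
    have hcore := PU_core j i n hj17 hi hn (fun p hp hpn => (hgu p hp hpn).1) (fun p hp hpn => (hs p hp hpn).1)
    have h2 : LP (fun p => c₀ * gus E j i p) n ≤
        LP (fun p => (p : ℝ) ^ (-1 + E.δ / 2) * (((KEnv.sc p : ℝ)) ^ 37)⁻¹) n := by
      refine LP_le _ _ (fun p => mul_nonneg (by linarith) (gus_nonneg _ _ _ _)) hn0 fun p hp hpn => ?_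
      have h3 := hgu p hp hpn
      have h4 : j ≤ KEnv.sc p := by
        unfold KEnv.sc
        have := Nat.one_le_two_pow (n := j)
        exact (Nat.le_log_iff_pow_le one_lt_two (by omega)).2 (by omega)
      have h5 : c₀ ≤ KEnv.sc p := by
        refine hJ₀.trans ?_
        exact_mod_cast hjJ.trans h4
      have hpos : (0 : ℝ) < KEnv.sc p := by linarith
      rw [(hs p hp hpn).2.1]
      have h6 : c₀ * (KEnv.sc p : ℝ) ^ (-(38 : ℝ)) ≤ (((KEnv.sc p : ℝ)) ^ 37)⁻¹ := by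
        have e1 : (KEnv.sc p : ℝ) ^ (-(38 : ℝ)) = (((KEnv.sc p : ℝ)) ^ 38)⁻¹ := by
          rw [Real.rpow_neg hpos.le]
          congr 1
          exact_mod_cast Real.rpow_natCast (KEnv.sc p : ℝ) 38
        have e2 : (((KEnv.sc p : ℝ)) ^ 37)⁻¹ = (KEnv.sc p : ℝ) * (((KEnv.sc p : ℝ)) ^ 38)⁻¹ := by
          field_simp
        rw [e1, e2]
        exact mul_le_mul_of_nonneg_right h5 (by positivity)
      calc c₀ * E.gu j p ≤ c₀ * ((p : ℝ) ^ (-1 + E.δ / 2) * (KEnv.sc p : ℝ) ^ (-(38 : ℝ))) :=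
            mul_le_mul_of_nonneg_left h3.2 (by linarith)
        _ = (p : ℝ) ^ (-1 + E.δ / 2) * (c₀ * (KEnv.sc p : ℝ) ^ (-(38 : ℝ))) := by ring
        _ ≤ _ := mul_le_mul_of_nonneg_left h6 (by positivity)
    refine h2.trans ?_
    rw [LP_mul_fun, LP_pow _ hn0, LP_inv_pow]
    refine mul_le_mul_of_nonneg_left ?_ (by positivity)
    have hiR : (10 : ℝ) ^ 19 ≤ i := by exact_mod_cast hj19.trans hi
    have hi0 : (0 : ℝ) < i := lt_of_lt_of_le (by norm_num) hiR
    have e1 : (i : ℝ) ^ (-(70 : ℝ)) = ((i : ℝ) ^ 70)⁻¹ := by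
      rw [Real.rpow_neg hi0.le]
      congr 1
      exact_mod_cast Real.rpow_natCast (i : ℝ) 70
    rw [e1]
    refine inv_anti₀ (by positivity) ?_
    calc (i : ℝ) ^ 70 ≤ (0.01 * (i : ℝ) ^ 2) ^ 37 := by
          have h7 : (i : ℝ) ^ 70 * (10 : ℝ) ^ 74 ≤ (i : ℝ) ^ 70 * (i : ℝ) ^ 4 := by
            refine mul_le_mul_of_nonneg_left ?_ (by positivity)
            calc (10 : ℝ) ^ 74 ≤ ((10 : ℝ) ^ 19) ^ 4 := by norm_num
              _ ≤ (i : ℝ) ^ 4 := pow_le_pow_left₀ (by positivity) hiR 4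
          have h8 : (0.01 * (i : ℝ) ^ 2) ^ 37 = (i : ℝ) ^ 70 * (i : ℝ) ^ 4 / 10 ^ 74 := by
            rw [mul_pow]
            norm_num
            ring
          rw [h8, le_div_iff₀ (by positivity)]
          exact h7
      _ ≤ _ := pow_le_pow_left₀ (by positivity) hcore 37

end Pool.Agent.Q39.KZ
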