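import Pool.Agent.Q39.KZ.Base

/-!
Project KZ (helper18), job SP: the small part.
-/

set_option autoImplicit false

namespace Pool.Agent.Q39.KZ

open Finset Filter Topology MeasureTheory
open scoped Classical
open Pool.Agent.W76.MO (hh nc cell lp Rough hh_pos nc_mul cell_loc)
open Q236.CM (LP LP_one LP_mul LP_prime LP_nonneg LP_le LP_pow LP_mul_fun)
open Pool.Agent.Q18.KZ

theorem SP_point (hA : S_LPA) (a h u : ℕ → ℝ) (ha : ∀ p, 0 ≤ a p) (hh : ∀ p, 0 ≤ h p) (hu : ∀ p, 0 ≤ u p) {n : ℕ}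
    (hn : n ≠ 0) : LP (fun p => a p + 2 * (u p + h p)) n ≤
      ∑ l ∈ n.divisors, ∑ r ∈ (n / l).divisors,
        LP (fun p => 4 * a p) l * LP (fun p => 8 * h p) r * LP (fun p => 8 * u p) (n / l / r) := by
  refine (hA a (fun p => 2 * (u p + h p)) ha (fun p => by have := hu p; have := hh p; positivity) n hn).trans ?_
  refine sum_le_sum fun l hl => ?_
  have hl' := Nat.dvd_of_mem_divisors hl
  have hl0 : l ≠ 0 := by
    rintro rfl
    exact hn (Nat.eq_zero_of_zero_dvd hl')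
  have hnl : n / l ≠ 0 := (Nat.div_pos (Nat.le_of_dvd (Nat.pos_of_ne_zero hn) hl') (Nat.pos_of_ne_zero hl0)).ne'
  have h1 : LP (fun p => 2 * a p) l ≤ LP (fun p => 4 * a p) l := by
    refine LP_le _ _ (fun p => by have := ha p; positivity) hl0 fun p _ _ => ?_
    have := ha p
    linarith
  have h2 : LP (fun p => 2 * (2 * (u p + h p))) (n / l) ≤
      ∑ r ∈ (n / l).divisors, LP (fun p => 8 * h p) r * LP (fun p => 8 * u p) (n / l / r) := by
    have h3 := hA (fun p => 4 * h p) (fun p => 4 * u p) (fun p => by have := hh p; positivity)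
      (fun p => by have := hu p; positivity) (n / l) hnl
    have e1 : (fun p => 4 * h p + 4 * u p) = fun p => 2 * (2 * (u p + h p)) := by
      funext p
      ring
    have e2 : (fun p => 2 * (4 * h p)) = fun p => 8 * h p := by
      funext p
      ring
    have e3 : (fun p => 2 * (4 * u p)) = fun p => 8 * u p := by
      funext p
      ring
    rw [e1, e2, e3] at h3
    exact h3
  have h4 : 0 ≤ LP (fun p => 2 * (2 * (u p + h p))) (n / l) :=
    LP_nonneg _ (fun p => by have := hu p; have := hh p; positivity) _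
  have h5 : 0 ≤ LP (fun p => 4 * a p) l := LP_nonneg _ (fun p => by have := ha p; positivity) _
  refine (mul_le_mul h1 h2 h4 h5).trans (le_of_eq ?_)
  rw [mul_sum]
  refine sum_congr rfl fun r _ => ?_
  rw [mul_assoc]

/-- **KZ-SP** -/
theorem t_SP (h1 : S_LPA) (_h2 : S_DG) (h3 : S_SPB) (h4 : S_SPC) (h5 : S_SPD) : S_SP := by
  intro E ε hε
  have hε' : 0 < ε / 3 := by positivity
  refine KZAll.imp (KZAll.and (KZAll.and (h3 E (ε / 3) hε') (h4 E (ε / 3) hε')) (h5 E (ε / 3) hε')) 1 one_pos 0 ?_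
  rintro η j V - - - - ⟨⟨hB, hC⟩, hD⟩ i k hi hk
  have hB := hB i k hi hk
  have hC := hC i k hi hk
  have hD := hD i k hi hk
  have h6 : ∑ n ∈ cell E.δ i k, LP (fun p => aV V p + 2 * (gus E j i p + ghs E V j i p)) n ≤
      ∑ n ∈ cell E.δ i k, ∑ l ∈ n.divisors, ∑ r ∈ (n / l).divisors,
        LP (fun p => 4 * aV V p) l * LP (fun p => 8 * ghs E V j i p) r * LP (fun p => 8 * gus E j i p) (n / l / r) :=
    sum_le_sum fun n hn => SP_point h1 _ _ _ (aV_nonneg V) (ghs_nonneg E V j i) (gus_nonneg E j i) (cell_ne hn)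
  refine h6.trans ?_
  have h7 : ∑ n ∈ cell E.δ i k, ∑ l ∈ n.divisors, ∑ r ∈ (n / l).divisors,
        LP (fun p => 4 * aV V p) l * LP (fun p => 8 * ghs E V j i p) r * LP (fun p => 8 * gus E j i p) (n / l / r) =
      ∑ n ∈ cell E.δ i k, ∑ l ∈ n.divisors, ∑ r ∈ (n / l).divisors.filter (fun r : ℕ => (2 : ℝ) ^ ((i : ℝ) / 10 ^ 6) ≤ (r : ℝ)),
        LP (fun p => 4 * aV V p) l * LP (fun p => 8 * ghs E V j i p) r * LP (fun p => 8 * gus E j i p) (n / l / r) +
      (∑ n ∈ cell E.δ i k, ∑ l ∈ n.divisors.filter (fun l : ℕ => (2 : ℝ) ^ ((i : ℝ) / 100) ≤ (l : ℝ)),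
        ∑ r ∈ (n / l).divisors.filter (fun r : ℕ => (r : ℝ) < (2 : ℝ) ^ ((i : ℝ) / 10 ^ 6)),
        LP (fun p => 4 * aV V p) l * LP (fun p => 8 * ghs E V j i p) r * LP (fun p => 8 * gus E j i p) (n / l / r) +
      ∑ n ∈ cell E.δ i k, ∑ l ∈ n.divisors.filter (fun l : ℕ => (l : ℝ) < (2 : ℝ) ^ ((i : ℝ) / 100)),
        ∑ r ∈ (n / l).divisors.filter (fun r : ℕ => (r : ℝ) < (2 : ℝ) ^ ((i : ℝ) / 10 ^ 6)),
        LP (fun p => 4 * aV V p) l * LP (fun p => 8 * ghs E V j i p) r * LP (fun p => 8 * gus E j i p) (n / l / r)) := by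
    rw [← sum_add_distrib, ← sum_add_distrib]
    refine sum_congr rfl fun n _ => ?_
    have e1 := sum_filter_add_sum_filter_not n.divisors (fun l : ℕ => (2 : ℝ) ^ ((i : ℝ) / 100) ≤ (l : ℝ))
      (fun l => ∑ r ∈ (n / l).divisors.filter (fun r : ℕ => (r : ℝ) < (2 : ℝ) ^ ((i : ℝ) / 10 ^ 6)),
        LP (fun p => 4 * aV V p) l * LP (fun p => 8 * ghs E V j i p) r * LP (fun p => 8 * gus E j i p) (n / l / r))
    simp only [not_le] at e1
    rw [e1, ← sum_add_distrib]
    refine sum_congr rfl fun l _ => ?_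
    have e2 := sum_filter_add_sum_filter_not (n / l).divisors (fun r : ℕ => (2 : ℝ) ^ ((i : ℝ) / 10 ^ 6) ≤ (r : ℝ))
      (fun r => LP (fun p => 4 * aV V p) l * LP (fun p => 8 * ghs E V j i p) r * LP (fun p => 8 * gus E j i p) (n / l / r))
    simp only [not_le] at e2
    exact e2.symm
  rw [h7]
  linarith

end Pool.Agent.Q39.KZ
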