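import Pool.Agent.Q39.KZ.SPC

/-!
Project KZ (helper18), job SPD: small part composed of elements of the random set and of hosts.
-/

set_option autoImplicit false

namespace Pool.Agent.Q39.KZ

open Finset Filter Topology MeasureTheory
open scoped Classical
open Pool.Agent.W76.MO (hh nc cell lp Rough hh_pos nc_mul cell_loc)
open Q236.CM (LP LP_one LP_mul LP_prime LP_nonneg LP_le LP_pow LP_mul_fun LP_div)
open Pool.Agent.Q18.KZ
open Pool.Agent.Q222.KZ (r2 r2n r2n' r2pos r2mono hh_le hh_le_half hh_ge E_half mem_cell card_dvd_Ioc)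

theorem LP_congr (f g : ℕ → ℝ) {n : ℕ} (h : ∀ p : ℕ, p.Prime → p ∣ n → f p = g p) : LP f n = LP g n := by
  unfold LP
  congr 1
  refine List.map_congr_left fun p hp => ?_
  exact h p (Nat.prime_of_mem_primeFactorsList hp) (Nat.dvd_of_mem_primeFactorsList hp)

theorem sum_LP_le (hL : S_LPE) (F : ℕ → ℝ) (h0 : ∀ p : ℕ, p.Prime → 0 ≤ F p ∧ F p ≤ 1 / 2) (M : ℕ)
    (hS : ∑ p ∈ (range (M + 1)).filter Nat.Prime, F p ≤ 1 / 8) : ∑ m ∈ Icc 1 M, LP F m ≤ 2 := by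
  let G : ℕ → ℝ := fun p => if p.Prime then F p else 0
  have hG : ∀ m, LP F m = LP G m := fun m => LP_congr _ _ fun p hp _ => by
    simp only [G]
    rw [if_pos hp]
  have h1 := hL G (fun p => by
    simp only [G]
    split_ifs with hp
    · exact h0 p hp
    · norm_num) M
  have e1 : ∑ p ∈ (range (M + 1)).filter Nat.Prime, G p = ∑ p ∈ (range (M + 1)).filter Nat.Prime, F p := by
    refine sum_congr rfl fun p hp => ?_
    simp only [G]
    rw [if_pos (mem_filter.1 hp).2]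
  rw [e1] at h1
  have h2 : Real.exp (2 * ∑ p ∈ (range (M + 1)).filter Nat.Prime, F p) ≤ 2 := by
    have h3 : (2 : ℝ) = Real.exp (Real.log 2) := (Real.exp_log two_pos).symm
    have h4 := Real.log_two_gt_d9
    calc Real.exp (2 * ∑ p ∈ (range (M + 1)).filter Nat.Prime, F p) ≤ Real.exp (Real.log 2) :=
          Real.exp_le_exp.2 (by linarith)
      _ = 2 := h3.symm
  have h3 : ∑ m ∈ Icc 1 M, LP F m = ∑ m ∈ Icc 1 M, LP G m := sum_congr rfl fun m _ => hG m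
  rw [h3]
  rcases Nat.eq_zero_or_pos M with hM | hM
  · subst hM
    simp
  · have e2 : Icc 1 M = insert 1 (Icc 2 M) := by
      ext m
      simp only [mem_Icc, mem_insert]
      omega
    rw [e2, sum_insert (by simp), LP_one]
    linarith

theorem sum_aV_le {η : ℝ} {V : ℕ → Bool} {j : ℕ} (hE : EvE η V) (hV : ∀ p : ℕ, V p = true → p.Prime ∧ 2 ^ (j / 10) ≤ p)
    (N : ℕ) : ∑ p ∈ (range N).filter Nat.Prime, aV V p ≤ η := by
  refine le_trans (le_of_eq ?_) (hE N)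
  rw [sum_filter, sum_filter]
  refine sum_congr rfl fun p _ => ?_
  unfold aV
  by_cases h : V p = true
  · rw [if_pos (hV p h).1, if_pos h]
  · rw [if_neg h]
    split_ifs <;> rfl

theorem aV_le {η : ℝ} {V : ℕ → Bool} {j : ℕ} (hE : EvE η V) (hV : ∀ p : ℕ, V p = true → p.Prime ∧ 2 ^ (j / 10) ≤ p)
    {p : ℕ} (hp : p.Prime) : aV V p ≤ η := by
  refine le_trans ?_ (sum_aV_le hE hV (p + 1))
  exact single_le_sum (f := fun p => aV V p) (fun q _ => aV_nonneg V q) (mem_filter.2 ⟨mem_range.2 (Nat.lt_succ_self p), hp⟩)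

theorem sum_gh_le {E : KEnv} {V : ℕ → Bool} {j : ℕ} (hD : ∀ N : ℕ,
    ∑ p ∈ (range N).filter Nat.Prime, E.gh V j p * (p : ℝ) ^ (1 / 8000 : ℝ) ≤ (2 : ℝ) ^ (-((j : ℝ) / 20000)))
    (hj : 10 ^ 6 ≤ j) (N : ℕ) : ∑ p ∈ (range N).filter Nat.Prime, E.gh V j p ≤ 1 / 64 := by
  have h1 : ∑ p ∈ (range N).filter Nat.Prime, E.gh V j p ≤
      ∑ p ∈ (range N).filter Nat.Prime, E.gh V j p * (p : ℝ) ^ (1 / 8000 : ℝ) := by
    refine sum_le_sum fun p hp => ?_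
    have hp' := (mem_filter.1 hp).2
    have h2 : (1 : ℝ) ≤ (p : ℝ) ^ (1 / 8000 : ℝ) :=
      Real.one_le_rpow (by exact_mod_cast hp'.one_lt.le) (by norm_num)
    exact le_mul_of_one_le_right (gh_nonneg _ _ _ _) h2
  refine h1.trans ((hD N).trans ?_)
  have hjR : (10 : ℝ) ^ 6 ≤ j := by exact_mod_cast hj
  calc (2 : ℝ) ^ (-((j : ℝ) / 20000)) ≤ (2 : ℝ) ^ (-6 : ℝ) := r2mono (by linarith)
    _ = 1 / 64 := by
      rw [Real.rpow_neg two_pos.le]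
      norm_num

/-- reordering of the triple sum -/
theorem swap3 (C : Finset ℕ) (M : ℕ) (hC : ∀ n ∈ C, n ≠ 0 ∧ n ≤ M) (A B : ℕ → Prop) (f : ℕ → ℕ → ℕ → ℝ) :
    ∑ n ∈ C, ∑ l ∈ n.divisors.filter A, ∑ r ∈ (n / l).divisors.filter B, f n l r =
      ∑ l ∈ (Icc 1 M).filter A, ∑ r ∈ (Icc 1 M).filter B, ∑ n ∈ C.filter (fun n => l ∣ n ∧ r ∣ n / l), f n l r := by
  have h1 : ∀ n ∈ C, ∑ l ∈ n.divisors.filter A, ∑ r ∈ (n / l).divisors.filter B, f n l r =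
      ∑ l ∈ (Icc 1 M).filter A, ∑ r ∈ (Icc 1 M).filter B, if l ∣ n ∧ r ∣ n / l then f n l r else 0 := by
    intro n hn
    obtain ⟨hn0, hnM⟩ := hC n hn
    have e1 : n.divisors.filter A = ((Icc 1 M).filter A).filter (fun l => l ∣ n) := by
      ext l
      simp only [mem_filter, Nat.mem_divisors, mem_Icc]
      constructor
      · rintro ⟨⟨a, b⟩, c⟩
        exact ⟨⟨⟨Nat.pos_of_dvd_of_pos a (Nat.pos_of_ne_zero b), (Nat.le_of_dvd (Nat.pos_of_ne_zero b) a).trans hnM⟩, c⟩, a⟩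
      · rintro ⟨⟨-, c⟩, a⟩
        exact ⟨⟨a, hn0⟩, c⟩
    rw [e1, sum_filter]
    refine sum_congr rfl fun l hl => ?_
    split_ifs with hln
    · have hl0 : 0 < l := Nat.pos_of_dvd_of_pos hln (Nat.pos_of_ne_zero hn0)
      have hnl : 0 < n / l := Nat.div_pos (Nat.le_of_dvd (Nat.pos_of_ne_zero hn0) hln) hl0
      have e2 : (n / l).divisors.filter B = ((Icc 1 M).filter B).filter (fun r => r ∣ n / l) := by
        ext r
        simp only [mem_filter, Nat.mem_divisors, mem_Icc]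
        constructor
        · rintro ⟨⟨a, b⟩, c⟩
          exact ⟨⟨⟨Nat.pos_of_dvd_of_pos a hnl, ((Nat.le_of_dvd hnl a).trans (Nat.div_le_self _ _)).trans hnM⟩, c⟩, a⟩
        · rintro ⟨⟨-, c⟩, a⟩
          exact ⟨⟨a, hnl.ne'⟩, c⟩
      rw [e2, sum_filter]
      refine sum_congr rfl fun r _ => ?_
      by_cases h : r ∣ n / l
      · rw [if_pos h, if_pos ⟨hln, h⟩]
      · rw [if_neg h, if_neg fun h' => h h'.2]
    · refine (sum_eq_zero fun r _ => ?_).symm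
      rw [if_neg fun h' => hln h'.1]
  rw [sum_congr rfl h1, sum_comm]
  refine sum_congr rfl fun l _ => ?_
  rw [sum_comm]
  refine sum_congr rfl fun r _ => ?_
  rw [sum_filter]

/-- the sum over the `n` for fixed `l, r` -/
theorem SPD_fixed {E : KEnv} {V : ℕ → Bool} {j i k : ℕ} (hi : 1000 ≤ i)
    (hPU : ∀ m : ℕ, (2 : ℝ) ^ (0.9 * (i : ℝ)) ≤ m → LP (fun p => 8 * gus E j i p) m ≤ (m : ℝ) ^ (-1 + E.δ / 2) * (i : ℝ) ^ (-(70 : ℝ)))
    {l r : ℕ} (hl : 1 ≤ l) (hr : 1 ≤ r) (hl' : (l : ℝ) < (2 : ℝ) ^ ((i : ℝ) / 100)) (hr' : (r : ℝ) < (2 : ℝ) ^ ((i : ℝ) / 10 ^ 6)) :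
    ∑ n ∈ (cell E.δ i k).filter (fun n => l ∣ n ∧ r ∣ n / l), X3 E V j i l r (n / l / r) ≤
      (LP (fun p => 4 * aV V p) l * LP (fun p => 8 * ghs E V j i p) r) *
        (2 * (2 : ℝ) ^ (-(1 / 2 + E.δ / 2) * (i : ℝ)) * (i : ℝ) ^ (-(70 : ℝ))) := by
  have hδ := E.hδ
  have hδ' := E.hδ'
  have hiR : (1000 : ℝ) ≤ i := by exact_mod_cast hi
  have hlR : (1 : ℝ) ≤ l := by exact_mod_cast hl
  have hrR : (1 : ℝ) ≤ r := by exact_mod_cast hr
  have hlr0 : (0 : ℝ) < (l : ℝ) * r := by positivity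
  have hlr : (l : ℝ) * r ≤ (2 : ℝ) ^ (0.02 * (i : ℝ)) := by
    calc (l : ℝ) * r ≤ (2 : ℝ) ^ ((i : ℝ) / 100) * (2 : ℝ) ^ ((i : ℝ) / 10 ^ 6) :=
          mul_le_mul hl'.le hr'.le (by linarith) (r2pos _).le
      _ = (2 : ℝ) ^ ((i : ℝ) / 100 + (i : ℝ) / 10 ^ 6) := (r2 _ _).symm
      _ ≤ _ := r2mono (by norm_num; linarith)
  have hhge : (l : ℝ) * r ≤ hh E.δ i := by
    refine hlr.trans (le_trans (r2mono ?_) (hh_ge (δ := E.δ) i))
    nlinarith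
  set c : ℝ := LP (fun p => 4 * aV V p) l * LP (fun p => 8 * ghs E V j i p) r with hc
  have hc0 : 0 ≤ c := mul_nonneg (LP_nonneg _ (fun p => mul_nonneg (by norm_num) (aV_nonneg V p)) _)
    (LP_nonneg _ (fun p => mul_nonneg (by norm_num) (ghs_nonneg E V j i p)) _)
  have h1 : ∀ n ∈ (cell E.δ i k).filter (fun n => l ∣ n ∧ r ∣ n / l), X3 E V j i l r (n / l / r) ≤
      c * (((2 : ℝ) ^ (i : ℝ) / (l * r)) ^ (-1 + E.δ / 2) * (i : ℝ) ^ (-(70 : ℝ))) := by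
    intro n hn
    rw [mem_filter] at hn
    have hn1 := cell_pos hn.1
    have e1 : l * r * (n / l / r) = n := by
      rw [mul_assoc, Nat.mul_div_cancel' hn.2.2, Nat.mul_div_cancel' hn.2.1]
    have e2 : (l : ℝ) * r * ((n / l / r : ℕ) : ℝ) = n := by exact_mod_cast e1
    have h2 : (2 : ℝ) ^ (i : ℝ) ≤ n := by
      have h3 : ((2 ^ i : ℕ) : ℝ) ≤ (n : ℝ) := by exact_mod_cast hn1.le
      rwa [r2n] at h3
    have h3 : (2 : ℝ) ^ (i : ℝ) / (l * r) ≤ ((n / l / r : ℕ) : ℝ) := by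
      rw [div_le_iff₀ hlr0]
      nlinarith
    have h4 : (2 : ℝ) ^ (0.9 * (i : ℝ)) ≤ (2 : ℝ) ^ (i : ℝ) / (l * r) := by
      rw [le_div_iff₀ hlr0]
      calc (2 : ℝ) ^ (0.9 * (i : ℝ)) * (l * r) ≤ (2 : ℝ) ^ (0.9 * (i : ℝ)) * (2 : ℝ) ^ (0.02 * (i : ℝ)) :=
            mul_le_mul_of_nonneg_left hlr (r2pos _).le
        _ = (2 : ℝ) ^ (0.9 * (i : ℝ) + 0.02 * (i : ℝ)) := (r2 _ _).symm
        _ ≤ _ := r2mono (by linarith)
    have h5 := hPU _ (h4.trans h3)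
    unfold X3
    rw [← hc]
    refine mul_le_mul_of_nonneg_left (h5.trans (mul_le_mul_of_nonneg_right ?_ (by positivity))) hc0
    exact Real.rpow_le_rpow_of_nonpos (by positivity) h3 (by linarith)
  refine (sum_le_card_nsmul _ _ _ h1).trans ?_
  rw [nsmul_eq_mul]
  have h2 : (((cell E.δ i k).filter (fun n => l ∣ n ∧ r ∣ n / l)).card : ℝ) ≤ 2 * (hh E.δ i / (l * r)) := by
    have h3 : (cell E.δ i k).filter (fun n => l ∣ n ∧ r ∣ n / l) ⊆
        (Ioc (2 ^ i + k * hh E.δ i) (2 ^ i + (k + 1) * hh E.δ i)).filter (fun n => l * r ∣ n) := by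
      intro n hn
      rw [mem_filter] at hn ⊢
      refine ⟨hn.1, ?_⟩
      obtain ⟨s, hs⟩ := hn.2.2
      refine ⟨s, ?_⟩
      rw [mul_assoc, ← hs, Nat.mul_div_cancel' hn.2.1]
    have h4 : (((Ioc (2 ^ i + k * hh E.δ i) (2 ^ i + (k + 1) * hh E.δ i)).filter (fun n => l * r ∣ n)).card : ℝ) ≤
        1 + ((2 ^ i + (k + 1) * hh E.δ i : ℕ) - (2 ^ i + k * hh E.δ i : ℕ) : ℝ) / (l * r : ℕ) :=
      card_dvd_Ioc (Nat.mul_pos hl hr) (by nlinarith [hh_pos E.δ i])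
    have e1 : ((2 ^ i + (k + 1) * hh E.δ i : ℕ) - (2 ^ i + k * hh E.δ i : ℕ) : ℝ) = hh E.δ i := by
      push_cast
      ring
    rw [e1] at h4
    push_cast at h4
    have h5 : (1 : ℝ) ≤ hh E.δ i / (l * r) := by
      rw [le_div_iff₀ hlr0]
      linarith
    have h6 : (((cell E.δ i k).filter (fun n => l ∣ n ∧ r ∣ n / l)).card : ℝ) ≤
        (((Ioc (2 ^ i + k * hh E.δ i) (2 ^ i + (k + 1) * hh E.δ i)).filter (fun n => l * r ∣ n)).card : ℝ) := by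
      exact_mod_cast card_le_card h3
    linarith
  have h3 : 0 ≤ c * (((2 : ℝ) ^ (i : ℝ) / (l * r)) ^ (-1 + E.δ / 2) * (i : ℝ) ^ (-(70 : ℝ))) := by positivity
  refine (mul_le_mul_of_nonneg_right h2 h3).trans ?_
  have h4 : (hh E.δ i : ℝ) / (l * r) * ((2 : ℝ) ^ (i : ℝ) / (l * r)) ^ (-1 + E.δ / 2) ≤
      (2 : ℝ) ^ (-(1 / 2 + E.δ / 2) * (i : ℝ)) := by
    have e1 : ((2 : ℝ) ^ (i : ℝ) / (l * r)) ^ (-1 + E.δ / 2) =
        (2 : ℝ) ^ ((i : ℝ) * (-1 + E.δ / 2)) * (((l : ℝ) * r) * ((l : ℝ) * r) ^ (-(E.δ / 2))) := by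
      rw [Real.div_rpow (r2pos _).le hlr0.le, ← Real.rpow_mul two_pos.le, div_eq_mul_inv, ← Real.rpow_neg hlr0.le]
      congr 1
      rw [show -(-1 + E.δ / 2) = 1 + -(E.δ / 2) by ring, Real.rpow_add hlr0, Real.rpow_one]
    have h5 : ((l : ℝ) * r) ^ (-(E.δ / 2)) ≤ 1 :=
      Real.rpow_le_one_of_one_le_of_nonpos (by nlinarith) (by linarith)
    have h6 := hh_le hδ (E_half E) i
    rw [e1]
    calc (hh E.δ i : ℝ) / (l * r) * ((2 : ℝ) ^ ((i : ℝ) * (-1 + E.δ / 2)) * (((l : ℝ) * r) * ((l : ℝ) * r) ^ (-(E.δ / 2))))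
        = (hh E.δ i : ℝ) * (2 : ℝ) ^ ((i : ℝ) * (-1 + E.δ / 2)) * ((l : ℝ) * r) ^ (-(E.δ / 2)) := by
          field_simp
      _ ≤ (2 : ℝ) ^ ((1 / 2 - E.δ) * (i : ℝ)) * (2 : ℝ) ^ ((i : ℝ) * (-1 + E.δ / 2)) * 1 := by gcongr
      _ = _ := by
          rw [mul_one, ← r2]
          congr 1
          ring
  calc 2 * ((hh E.δ i : ℝ) / (l * r)) * (c * (((2 : ℝ) ^ (i : ℝ) / (l * r)) ^ (-1 + E.δ / 2) * (i : ℝ) ^ (-(70 : ℝ))))
      = c * (2 * ((hh E.δ i : ℝ) / (l * r) * ((2 : ℝ) ^ (i : ℝ) / (l * r)) ^ (-1 + E.δ / 2)) * (i : ℝ) ^ (-(70 : ℝ))) := by ring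
    _ ≤ c * (2 * (2 : ℝ) ^ (-(1 / 2 + E.δ / 2) * (i : ℝ)) * (i : ℝ) ^ (-(70 : ℝ))) := by gcongr

/-- **KZ-SPD** -/
theorem t_SPD (h1 : S_PU) (h2 : S_LPE) (_h3 : S_DG) (h4 : S_DM) : S_SPD := by
  intro E ε hε
  obtain ⟨J, hJ⟩ := exists_nat_ge (8 / ε)
  refine KZAll.imp (KZAll.and (h1 E 8 (by norm_num)) (h4 E)) (1 / 32) (by norm_num) (max J (10 ^ 6)) ?_
  rintro η j V hη hη' hj hEv ⟨hPU, hDM⟩ i k hi hk
  have hj6 : 10 ^ 6 ≤ j := (le_max_right _ _).trans hj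
  have hJi : J ≤ i := ((le_max_left _ _).trans hj).trans hi
  have hi3 : 1000 ≤ i := by omega
  have hle := cell_le E.hδ hk
  have hC : ∀ n ∈ cell E.δ i k, n ≠ 0 ∧ n ≤ 2 ^ (i + 1) := fun n hn => ⟨cell_ne hn, (mem_Ioc.1 hn).2.trans hle⟩
  set M := 2 ^ (i + 1) with hM
  have hsw := swap3 (cell E.δ i k) M hC (fun l : ℕ => (l : ℝ) < (2 : ℝ) ^ ((i : ℝ) / 100))
    (fun r : ℕ => (r : ℝ) < (2 : ℝ) ^ ((i : ℝ) / 10 ^ 6)) (fun n l r => X3 E V j i l r (n / l / r))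
  have hgoal : ∑ n ∈ cell E.δ i k, ∑ l ∈ n.divisors.filter (fun l : ℕ => (l : ℝ) < (2 : ℝ) ^ ((i : ℝ) / 100)),
    ∑ r ∈ (n / l).divisors.filter (fun r : ℕ => (r : ℝ) < (2 : ℝ) ^ ((i : ℝ) / 10 ^ 6)), X3 E V j i l r (n / l / r) ≤
      ε * ww E.δ i := by
    rw [hsw]
    set D : ℝ := 2 * (2 : ℝ) ^ (-(1 / 2 + E.δ / 2) * (i : ℝ)) * (i : ℝ) ^ (-(70 : ℝ)) with hD
    have hD0 : 0 ≤ D := by positivity
    have h5 : ∀ l ∈ (Icc 1 M).filter (fun l : ℕ => (l : ℝ) < (2 : ℝ) ^ ((i : ℝ) / 100)),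
        ∀ r ∈ (Icc 1 M).filter (fun r : ℕ => (r : ℝ) < (2 : ℝ) ^ ((i : ℝ) / 10 ^ 6)),
        ∑ n ∈ (cell E.δ i k).filter (fun n => l ∣ n ∧ r ∣ n / l), X3 E V j i l r (n / l / r) ≤
          (LP (fun p => 4 * aV V p) l * LP (fun p => 8 * ghs E V j i p) r) * D := by
      intro l hl r hr
      rw [mem_filter, mem_Icc] at hl hr
      exact SPD_fixed hi3 (fun m hm => hPU i m hi hm) hl.1.1 hr.1.1 hl.2 hr.2
    have nA : ∀ l, 0 ≤ LP (fun p => 4 * aV V p) l := fun l => LP_nonneg _ (fun p => mul_nonneg (by norm_num) (aV_nonneg V p)) _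
    have nB : ∀ r, 0 ≤ LP (fun p => 8 * ghs E V j i p) r := fun r =>
      LP_nonneg _ (fun p => mul_nonneg (by norm_num) (ghs_nonneg E V j i p)) _
    calc _ ≤ ∑ l ∈ (Icc 1 M).filter (fun l : ℕ => (l : ℝ) < (2 : ℝ) ^ ((i : ℝ) / 100)),
        ∑ r ∈ (Icc 1 M).filter (fun r : ℕ => (r : ℝ) < (2 : ℝ) ^ ((i : ℝ) / 10 ^ 6)),
          (LP (fun p => 4 * aV V p) l * LP (fun p => 8 * ghs E V j i p) r) * D :=
          sum_le_sum fun l hl => sum_le_sum fun r hr => h5 l hl r hr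
      _ = (∑ l ∈ (Icc 1 M).filter (fun l : ℕ => (l : ℝ) < (2 : ℝ) ^ ((i : ℝ) / 100)), LP (fun p => 4 * aV V p) l) *
          (∑ r ∈ (Icc 1 M).filter (fun r : ℕ => (r : ℝ) < (2 : ℝ) ^ ((i : ℝ) / 10 ^ 6)), LP (fun p => 8 * ghs E V j i p) r) * D := by
          rw [sum_mul_sum, sum_mul]
          refine sum_congr rfl fun l _ => ?_
          rw [sum_mul]
      _ ≤ (∑ l ∈ Icc 1 M, LP (fun p => 4 * aV V p) l) * (∑ r ∈ Icc 1 M, LP (fun p => 8 * ghs E V j i p) r) * D := by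
          refine mul_le_mul_of_nonneg_right (mul_le_mul ?_ ?_ (sum_nonneg fun r _ => nB r) (sum_nonneg fun l _ => nA l)) hD0
          · exact sum_le_sum_of_subset_of_nonneg (filter_subset _ _) fun l _ _ => nA l
          · exact sum_le_sum_of_subset_of_nonneg (filter_subset _ _) fun r _ _ => nB r
      _ ≤ 2 * 2 * D := by
          refine mul_le_mul_of_nonneg_right (mul_le_mul ?_ ?_ (sum_nonneg fun r _ => nB r) (by norm_num)) hD0
          · refine sum_LP_le h2 _ (fun p hp => ⟨mul_nonneg (by norm_num) (aV_nonneg V p), ?_⟩) M ?_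
            · have := aV_le hEv.esv hEv.sub hp
              linarith
            · rw [← mul_sum]
              have := sum_aV_le hEv.esv hEv.sub (M + 1)
              linarith
          · refine sum_LP_le h2 _ (fun p hp => ⟨mul_nonneg (by norm_num) (ghs_nonneg E V j i p), ?_⟩) M ?_
            · have h6 := sum_gh_le hDM hj6 (p + 1)
              have h7 := single_le_sum (f := fun p => E.gh V j p) (fun q _ => gh_nonneg E V j q)
                (mem_filter.2 ⟨mem_range.2 (Nat.lt_succ_self p), hp⟩)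
              have h8 := ghs_le E V j i p
              have h9 : E.gh V j p ≤ 1 / 64 := h7.trans h6
              linarith
            · rw [← mul_sum]
              have h6 := sum_gh_le hDM hj6 (M + 1)
              have h7 : ∑ p ∈ (range (M + 1)).filter Nat.Prime, ghs E V j i p ≤
                  ∑ p ∈ (range (M + 1)).filter Nat.Prime, E.gh V j p := sum_le_sum fun p _ => ghs_le E V j i p
              linarith
      _ ≤ ε * ww E.δ i := by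
          have hiR : (1000 : ℝ) ≤ i := by exact_mod_cast hi3
          have hi0 : (0 : ℝ) < i := by linarith
          have h6 : 8 / ε ≤ i := hJ.trans (by exact_mod_cast hJi)
          rw [div_le_iff₀ hε] at h6
          have e1 : (i : ℝ) ^ (-(70 : ℝ)) = ((i : ℝ) ^ 70)⁻¹ := by
            rw [Real.rpow_neg hi0.le]
            congr 1
            exact_mod_cast Real.rpow_natCast (i : ℝ) 70
          rw [hD, e1]
          unfold ww
          have h7 : 8 * ((i : ℝ) ^ 70)⁻¹ ≤ ε / (i : ℝ) ^ 40 := by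
            rw [le_div_iff₀ (by positivity), ← div_eq_mul_inv, div_mul_eq_mul_div, div_le_iff₀ (by positivity)]
            calc 8 * (i : ℝ) ^ 40 ≤ (i * ε) * (i : ℝ) ^ 40 := mul_le_mul_of_nonneg_right h6 (by positivity)
              _ = ε * (i : ℝ) ^ 41 := by ring
              _ ≤ ε * (i : ℝ) ^ 70 := mul_le_mul_of_nonneg_left (pow_le_pow_right₀ (by linarith) (by norm_num)) hε.le
          calc 2 * 2 * (2 * (2 : ℝ) ^ (-(1 / 2 + E.δ / 2) * (i : ℝ)) * ((i : ℝ) ^ 70)⁻¹)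
              = (8 * ((i : ℝ) ^ 70)⁻¹) * (2 : ℝ) ^ (-(1 / 2 + E.δ / 2) * (i : ℝ)) := by ring
            _ ≤ (ε / (i : ℝ) ^ 40) * (2 : ℝ) ^ (-(1 / 2 + E.δ / 2) * (i : ℝ)) :=
                mul_le_mul_of_nonneg_right h7 (r2pos _).le
            _ = _ := by ring
  exact hgoal

end Pool.Agent.Q39.KZ
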