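import Pool.Agent.Q18.KZ.S3
import Pool.Agent.Q222.KZ.Base
import Pool.Agent.Q265.KZ.Basic

/-!
Project KZ (helper18): basic facts for the jobs PU, SPC, SPD, SP.
-/

set_option autoImplicit false

namespace Pool.Agent.Q39.KZ

open Finset Filter Topology MeasureTheory
open scoped Classical
open Pool.Agent.W76.MO (hh nc cell lp Rough hh_pos nc_mul cell_loc)
open Q236.CM (LP LP_one LP_mul LP_prime LP_nonneg LP_le LP_pow LP_mul_fun)
open Pool.Agent.Q18.KZ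
open Pool.Agent.Q222.KZ (r2 r2n r2n' r2pos r2mono hh_le hh_le_half hh_ge E_half mem_cell)

theorem KZAll.imp {E : KEnv} {P Q : ℝ → ℕ → (ℕ → Bool) → Prop} (h : KZAll E P) (η₁ : ℝ) (hη : 0 < η₁) (J₁ : ℕ)
    (h' : ∀ η j V, 0 < η → η ≤ η₁ → J₁ ≤ j → Ev E (20 * E.CB) η j V → P η j V → Q η j V) : KZAll E Q := by
  obtain ⟨η₀, J, h0, h1⟩ := h
  refine ⟨min η₀ η₁, max J J₁, lt_min h0 hη, fun η j V a b c d => ?_⟩
  exact h' η j V a (b.trans (min_le_right _ _)) (le_trans (le_max_right _ _) c) d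
    (h1 η j V a (b.trans (min_le_left _ _)) (le_trans (le_max_left _ _) c) d)

theorem KZAll.and {E : KEnv} {P Q : ℝ → ℕ → (ℕ → Bool) → Prop} (h : KZAll E P) (h' : KZAll E Q) :
    KZAll E (fun η j V => P η j V ∧ Q η j V) := by
  obtain ⟨η₀, J, h0, h1⟩ := h
  refine KZAll.imp h' η₀ h0 J fun η j V a b c d e => ⟨h1 η j V a b c d, e⟩

theorem KZAll.of {E : KEnv} {Q : ℝ → ℕ → (ℕ → Bool) → Prop} (η₁ : ℝ) (hη : 0 < η₁) (J₁ : ℕ)
    (h' : ∀ η j V, 0 < η → η ≤ η₁ → J₁ ≤ j → Ev E (20 * E.CB) η j V → Q η j V) : KZAll E Q := ⟨η₁, J₁, hη, h'⟩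

theorem al_pos (E : KEnv) : 0 < E.al := by unfold KEnv.al; positivity

theorem ww_nonneg (δ : ℝ) (i : ℕ) : 0 ≤ ww δ i := by unfold ww; positivity

theorem aV_nonneg (V : ℕ → Bool) (p : ℕ) : 0 ≤ aV V p := by
  unfold aV
  split_ifs
  · positivity
  · exact le_rfl

theorem gu_nonneg (E : KEnv) (j p : ℕ) : 0 ≤ E.gu j p := by
  unfold KEnv.gu
  split_ifs
  · exact div_nonneg (ww_nonneg _ _) (Nat.cast_nonneg _)
  · exact le_rfl

theorem Om1_nonneg (E : KEnv) (V : ℕ → Bool) (i k : ℕ) : 0 ≤ E.Om1 V i k := by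
  unfold KEnv.Om1
  exact sum_nonneg fun v _ => by positivity

theorem Om2_nonneg (E : KEnv) (V : ℕ → Bool) (i k : ℕ) : 0 ≤ E.Om2 V i k := by
  unfold KEnv.Om2
  exact sum_nonneg fun v _ => by positivity

theorem G1a_nonneg (E : KEnv) (V : ℕ → Bool) (i k q : ℕ) : 0 ≤ E.G1a V i k q := by
  unfold KEnv.G1a
  refine mul_nonneg (mul_nonneg (al_pos E).le (ww_nonneg _ _)) (sum_nonneg fun v _ => mul_nonneg ?_ (add_nonneg ?_ ?_))
  · exact div_nonneg (by positivity) (Om1_nonneg _ _ _ _)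
  · split_ifs <;> positivity
  · split_ifs <;> positivity

theorem G2_nonneg (E : KEnv) (V : ℕ → Bool) (i k q : ℕ) : 0 ≤ E.G2 V i k q := by
  unfold KEnv.G2
  refine mul_nonneg (mul_nonneg (al_pos E).le (ww_nonneg _ _)) (sum_nonneg fun v _ => ?_)
  exact div_nonneg (by positivity) (Om2_nonneg _ _ _ _)

theorem gh_nonneg (E : KEnv) (V : ℕ → Bool) (j q : ℕ) : 0 ≤ E.gh V j q := by
  unfold KEnv.gh KEnv.H1 KEnv.H2
  exact sum_nonneg fun i _ => add_nonneg (sum_nonneg fun k _ => G1a_nonneg _ _ _ _ _)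
    (sum_nonneg fun k _ => G2_nonneg _ _ _ _ _)

theorem gus_nonneg (E : KEnv) (j i p : ℕ) : 0 ≤ gus E j i p := by
  unfold gus
  split_ifs
  · exact gu_nonneg _ _ _
  · exact le_rfl

theorem ghs_nonneg (E : KEnv) (V : ℕ → Bool) (j i p : ℕ) : 0 ≤ ghs E V j i p := by
  unfold ghs
  split_ifs
  · exact gh_nonneg _ _ _ _
  · exact le_rfl

theorem gus_le (E : KEnv) (j i p : ℕ) : gus E j i p ≤ E.gu j p := by
  unfold gus
  split_ifs
  · exact le_rfl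
  · exact gu_nonneg _ _ _

theorem ghs_le (E : KEnv) (V : ℕ → Bool) (j i p : ℕ) : ghs E V j i p ≤ E.gh V j p := by
  unfold ghs
  split_ifs
  · exact le_rfl
  · exact gh_nonneg _ _ _ _

theorem cell_pos {δ : ℝ} {i k n : ℕ} (hn : n ∈ cell δ i k) : 2 ^ i < n := by
  exact lt_of_le_of_lt (Nat.le_add_right _ _) (mem_cell.1 hn).1

theorem cell_ne {δ : ℝ} {i k n : ℕ} (hn : n ∈ cell δ i k) : n ≠ 0 := (Nat.zero_lt_of_lt (cell_pos hn)).ne'

end Pool.Agent.Q39.KZ
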