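import Pool.Agent.Q39.KZ.X3

/-!
Project KZ (helper18), job SPC: large part composed of elements of the random set.
-/

set_option autoImplicit false

namespace Pool.Agent.Q39.KZ

open Finset Filter Topology MeasureTheory
open scoped Classical
open Pool.Agent.W76.MO (hh nc cell lp Rough hh_pos nc_mul cell_loc)
open Q236.CM (LP LP_one LP_mul LP_prime LP_nonneg LP_le LP_pow LP_mul_fun LP_div)
open Pool.Agent.Q18.KZ
open Pool.Agent.Q222.KZ (r2 r2n r2n' r2pos r2mono hh_le hh_le_half hh_ge E_half mem_cell)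

theorem cell_le {δ : ℝ} (hδ : 0 < δ) {i k : ℕ} (hk : k < nc δ i) : 2 ^ i + (k + 1) * hh δ i ≤ 2 ^ (i + 1) := by
  have h1 := nc_mul δ hδ i
  have h2 : (k + 1) * hh δ i ≤ nc δ i * hh δ i := Nat.mul_le_mul_right _ hk
  rw [h1] at h2
  rw [pow_succ]
  omega

/-- the constant -/
noncomputable def CI (δ : ℝ) (i : ℕ) : ℝ :=
  (2 : ℝ) ^ (1 / 10 ^ 19 * (i : ℝ)) * ((2 : ℝ) ^ ((i : ℝ) / 10 ^ 21) * (2 : ℝ) ^ (((i : ℝ) + 1) * (δ / 2)))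

theorem inner_bound {E : KEnv} {V : ℕ → Bool} {j i n : ℕ} (h : DG1 E j V) (hj : 10 ^ 21 ≤ j)
    (hi : j ≤ i) (hn0 : n ≠ 0) (hn : n ≤ 2 ^ (i + 1)) (hR : Rg j n) {l : ℕ} (hl : l ∈ n.divisors) :
    ∑ r ∈ (n / l).divisors.filter (fun r : ℕ => (r : ℝ) < (2 : ℝ) ^ ((i : ℝ) / 10 ^ 6)), X3 E V j i l r (n / l / r) ≤
      CI E.δ i * (if Vn V l then (l : ℝ) ^ (-(1 / 2 : ℝ) - dd) * (((n / l : ℕ) : ℝ))⁻¹ else 0) := by
  have hln := Nat.dvd_of_mem_divisors hl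
  have hl0 : l ≠ 0 := by
    rintro rfl
    exact hn0 (Nat.eq_zero_of_zero_dvd hln)
  have hnl : n / l ≠ 0 := (Nat.div_pos (Nat.le_of_dvd (Nat.pos_of_ne_zero hn0) hln) (Nat.pos_of_ne_zero hl0)).ne'
  have hi1 : 1 ≤ i := by omega
  set a : ℝ := if Vn V l then (l : ℝ) ^ (-(1 / 2 : ℝ) - dd) else 0 with ha
  have ha0 : 0 ≤ a := by
    rw [ha]
    split_ifs
    · positivity
    · exact le_rfl
  have e1 : (if Vn V l then (l : ℝ) ^ (-(1 / 2 : ℝ) - dd) * (((n / l : ℕ) : ℝ))⁻¹ else 0) = a * (((n / l : ℕ) : ℝ))⁻¹ := by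
    rw [ha]
    split_ifs
    · rfl
    · rw [zero_mul]
  rw [e1]
  have h8 : ∀ r ∈ (n / l).divisors.filter (fun r : ℕ => (r : ℝ) < (2 : ℝ) ^ ((i : ℝ) / 10 ^ 6)),
      X3 E V j i l r (n / l / r) ≤ (8 : ℝ) ^ Om n * (a * ((((n / l : ℕ) : ℝ))⁻¹ *
        ((2 : ℝ) ^ ((i : ℝ) / 10 ^ 21) * (2 : ℝ) ^ (((i : ℝ) + 1) * (E.δ / 2))))) := by
    intro r hr
    rw [mem_filter] at hr
    have hrn := Nat.dvd_of_mem_divisors hr.1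
    have hr0 : r ≠ 0 := by
      rintro rfl
      exact hnl (Nat.eq_zero_of_zero_dvd hrn)
    have hm0 : n / l / r ≠ 0 :=
      (Nat.div_pos (Nat.le_of_dvd (Nat.pos_of_ne_zero hnl) hrn) (Nat.pos_of_ne_zero hr0)).ne'
    have e2 : r * (n / l / r) = n / l := Nat.mul_div_cancel' hrn
    have e3 : l * r * (n / l / r) = n := by
      rw [mul_assoc, e2]
      exact Nat.mul_div_cancel' hln
    have h9 := X3_le (i := i) h (by omega) hl0 hr0 hm0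
    rw [e3, ← ha] at h9
    refine h9.trans (mul_le_mul_of_nonneg_left (mul_le_mul_of_nonneg_left ?_ ha0) (by positivity))
    have hrR : (0 : ℝ) < r := by exact_mod_cast Nat.pos_of_ne_zero hr0
    have hmR : (0 : ℝ) < ((n / l / r : ℕ) : ℝ) := by exact_mod_cast Nat.pos_of_ne_zero hm0
    have e4 : (((n / l : ℕ) : ℝ))⁻¹ = (r : ℝ) ^ (-1 : ℝ) * (((n / l / r : ℕ) : ℝ)) ^ (-1 : ℝ) := by
      rw [Real.rpow_neg_one, Real.rpow_neg_one, ← mul_inv, ← Nat.cast_mul, e2]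
    rw [Real.rpow_add hrR, Real.rpow_add hmR, e4]
    have h10 : (r : ℝ) ^ (1 / 10 ^ 15 : ℝ) ≤ (2 : ℝ) ^ ((i : ℝ) / 10 ^ 21) := by
      calc (r : ℝ) ^ (1 / 10 ^ 15 : ℝ) ≤ ((2 : ℝ) ^ ((i : ℝ) / 10 ^ 6)) ^ (1 / 10 ^ 15 : ℝ) :=
            Real.rpow_le_rpow hrR.le hr.2.le (by positivity)
        _ = (2 : ℝ) ^ ((i : ℝ) / 10 ^ 21) := by
            rw [← Real.rpow_mul two_pos.le]
            congr 1
            norm_num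
            ring
    have h11 : (((n / l / r : ℕ) : ℝ)) ^ (E.δ / 2) ≤ (2 : ℝ) ^ (((i : ℝ) + 1) * (E.δ / 2)) := by
      have h12 : ((n / l / r : ℕ) : ℝ) ≤ (2 : ℝ) ^ ((i : ℝ) + 1) := by
        have h13 : n / l / r ≤ 2 ^ (i + 1) := ((Nat.div_le_self _ _).trans (Nat.div_le_self _ _)).trans hn
        have h14 : ((n / l / r : ℕ) : ℝ) ≤ ((2 ^ (i + 1) : ℕ) : ℝ) := by exact_mod_cast h13
        rw [r2n] at h14
        push_cast at h14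
        exact h14
      rw [Real.rpow_mul two_pos.le]
      exact Real.rpow_le_rpow hmR.le h12 (by have := E.hδ; positivity)
    calc (r : ℝ) ^ (-1 : ℝ) * (r : ℝ) ^ (1 / 10 ^ 15 : ℝ) *
          ((((n / l / r : ℕ) : ℝ)) ^ (-1 : ℝ) * (((n / l / r : ℕ) : ℝ)) ^ (E.δ / 2))
        ≤ (r : ℝ) ^ (-1 : ℝ) * (2 : ℝ) ^ ((i : ℝ) / 10 ^ 21) *
          ((((n / l / r : ℕ) : ℝ)) ^ (-1 : ℝ) * (2 : ℝ) ^ (((i : ℝ) + 1) * (E.δ / 2))) := by gcongr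
      _ = _ := by ring
  refine (sum_le_card_nsmul _ _ _ h8).trans ?_
  rw [nsmul_eq_mul]
  have h9 : (((n / l).divisors.filter (fun r : ℕ => (r : ℝ) < (2 : ℝ) ^ ((i : ℝ) / 10 ^ 6))).card : ℝ) ≤ (2 : ℝ) ^ Om n := by
    have h10 : ((n / l).divisors.filter (fun r : ℕ => (r : ℝ) < (2 : ℝ) ^ ((i : ℝ) / 10 ^ 6))).card ≤ 2 ^ Om n := by
      refine (card_filter_le _ _).trans ?_
      refine (card_le_card (Nat.divisors_subset_of_dvd hn0 (Nat.div_dvd_of_dvd hln))).trans ?_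
      rw [Om_eq]
      exact Pool.Agent.Q265.KZ.card_div_le hn0
    exact_mod_cast h10
  have h10 := Om_small hR hn hj hi1
  have e5 : (2 : ℝ) ^ Om n * (8 : ℝ) ^ Om n = (16 : ℝ) ^ Om n := by
    rw [← mul_pow]
    norm_num
  have h11 : 0 ≤ a * ((((n / l : ℕ) : ℝ))⁻¹ *
        ((2 : ℝ) ^ ((i : ℝ) / 10 ^ 21) * (2 : ℝ) ^ (((i : ℝ) + 1) * (E.δ / 2)))) := by positivity
  calc _ ≤ (2 : ℝ) ^ Om n * ((8 : ℝ) ^ Om n * (a * ((((n / l : ℕ) : ℝ))⁻¹ *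
        ((2 : ℝ) ^ ((i : ℝ) / 10 ^ 21) * (2 : ℝ) ^ (((i : ℝ) + 1) * (E.δ / 2)))))) :=
        mul_le_mul_of_nonneg_right h9 (mul_nonneg (by positivity) h11)
    _ = (16 : ℝ) ^ Om n * (a * ((((n / l : ℕ) : ℝ))⁻¹ *
        ((2 : ℝ) ^ ((i : ℝ) / 10 ^ 21) * (2 : ℝ) ^ (((i : ℝ) + 1) * (E.δ / 2))))) := by
        rw [← mul_assoc, e5]
    _ ≤ (2 : ℝ) ^ (1 / 10 ^ 19 * (i : ℝ)) * (a * ((((n / l : ℕ) : ℝ))⁻¹ *
        ((2 : ℝ) ^ ((i : ℝ) / 10 ^ 21) * (2 : ℝ) ^ (((i : ℝ) + 1) * (E.δ / 2))))) :=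
        mul_le_mul_of_nonneg_right h10 h11
    _ = _ := by
        unfold CI
        ring

theorem point_bound {E : KEnv} {V : ℕ → Bool} {j i n : ℕ} (h : DG1 E j V)
    (hV : ∀ p : ℕ, V p = true → p.Prime ∧ 2 ^ (j / 10) ≤ p) (hj : 10 ^ 21 ≤ j)
    (hi : j ≤ i) (hn0 : n ≠ 0) (hn : n ≤ 2 ^ (i + 1)) :
    ∑ l ∈ n.divisors.filter (fun l : ℕ => (2 : ℝ) ^ ((i : ℝ) / 100) ≤ (l : ℝ)),
    ∑ r ∈ (n / l).divisors.filter (fun r : ℕ => (r : ℝ) < (2 : ℝ) ^ ((i : ℝ) / 10 ^ 6)), X3 E V j i l r (n / l / r) ≤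
      if Rg j n then CI E.δ i * SVe V ((2 : ℝ) ^ ((i : ℝ) / 100)) n else 0 := by
  split_ifs with hR
  · unfold SVe
    rw [mul_sum]
    have e1 : n.divisors.filter (fun l => Vn V l ∧ (2 : ℝ) ^ ((i : ℝ) / 100) ≤ (l : ℝ)) =
        (n.divisors.filter (fun l : ℕ => (2 : ℝ) ^ ((i : ℝ) / 100) ≤ (l : ℝ))).filter (Vn V) := by
      ext l
      simp only [mem_filter]
      tauto
    rw [e1, sum_filter (s := n.divisors.filter (fun l : ℕ => (2 : ℝ) ^ ((i : ℝ) / 100) ≤ (l : ℝ)))]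
    refine sum_le_sum fun l hl => ?_
    refine (inner_bound h hj hi hn0 hn hR (mem_filter.1 hl).1).trans (le_of_eq ?_)
    split_ifs
    · rfl
    · rw [mul_zero]
  · refine le_of_eq (sum_eq_zero fun l hl => sum_eq_zero fun r hr => ?_)
    have hln := Nat.dvd_of_mem_divisors (mem_filter.1 hl).1
    have hl0 : l ≠ 0 := by
      rintro rfl
      exact hn0 (Nat.eq_zero_of_zero_dvd hln)
    have hnl : n / l ≠ 0 := (Nat.div_pos (Nat.le_of_dvd (Nat.pos_of_ne_zero hn0) hln) (Nat.pos_of_ne_zero hl0)).ne'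
    have hrn := Nat.dvd_of_mem_divisors (mem_filter.1 hr).1
    have hr0 : r ≠ 0 := by
      rintro rfl
      exact hnl (Nat.eq_zero_of_zero_dvd hrn)
    have hm0 : n / l / r ≠ 0 :=
      (Nat.div_pos (Nat.le_of_dvd (Nat.pos_of_ne_zero hnl) hrn) (Nat.pos_of_ne_zero hr0)).ne'
    have e2 : r * (n / l / r) = n / l := Nat.mul_div_cancel' hrn
    have e3 : l * r * (n / l / r) = n := by
      rw [mul_assoc, e2]
      exact Nat.mul_div_cancel' hln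
    refine X3_zero h hV hl0 hr0 hm0 ?_
    rw [e3]
    exact hR

theorem SPC_num (δ : ℝ) (hδ : 0 < δ) (hδ' : δ ≤ 1 / 10 ^ 24) (ε : ℝ) (hε : 0 < ε) : ∃ J : ℕ, ∀ i : ℕ, J ≤ i →
    CI δ i * ((2 : ℝ) ^ (e0 * i) * ((hh δ i : ℝ) / 2 ^ i * (2 : ℝ) ^ (-(1 / 10 ^ 18) * (i : ℝ)) +
      (2 : ℝ) ^ (-(1 / 2 + 1 / 10 ^ 5) * (i : ℝ)))) ≤ ε * ww δ i := by
  obtain ⟨J, hJ⟩ := pow_small (8 / 10 ^ 19) (ε / 4) (by norm_num) (by positivity)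
  refine ⟨max J 1, fun i hi => ?_⟩
  have h1 := hJ i ((le_max_left _ _).trans hi)
  have hi1 : 1 ≤ i := (le_max_right _ _).trans hi
  have hiR : (1 : ℝ) ≤ i := by exact_mod_cast hi1
  have h2 : (hh δ i : ℝ) / 2 ^ i ≤ (2 : ℝ) ^ (-(1 / 2 + δ) * (i : ℝ)) := by
    rw [div_le_iff₀ (by positivity), ← Real.rpow_natCast, ← r2]
    refine (hh_le hδ (hδ'.trans (by norm_num)) i).trans (r2mono (le_of_eq (by ring)))
  have h3 : (hh δ i : ℝ) / 2 ^ i * (2 : ℝ) ^ (-(1 / 10 ^ 18) * (i : ℝ)) ≤ (2 : ℝ) ^ (-(1 / 2 + δ + 1 / 10 ^ 18) * (i : ℝ)) := by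
    refine (mul_le_mul_of_nonneg_right h2 (r2pos _).le).trans (le_of_eq ?_)
    rw [← r2]
    congr 1
    ring
  have h4 : (2 : ℝ) ^ (-(1 / 2 + 1 / 10 ^ 5) * (i : ℝ)) ≤ (2 : ℝ) ^ (-(1 / 2 + δ + 1 / 10 ^ 18) * (i : ℝ)) := by
    refine r2mono ?_
    nlinarith
  have h5 : (2 : ℝ) ^ (((i : ℝ) + 1) * (δ / 2)) ≤ 2 * (2 : ℝ) ^ (δ / 2 * (i : ℝ)) := by
    calc (2 : ℝ) ^ (((i : ℝ) + 1) * (δ / 2)) ≤ (2 : ℝ) ^ (1 + δ / 2 * (i : ℝ)) := r2mono (by nlinarith)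
      _ = _ := by rw [r2, Real.rpow_one]
  unfold CI ww
  calc (2 : ℝ) ^ (1 / 10 ^ 19 * (i : ℝ)) * ((2 : ℝ) ^ ((i : ℝ) / 10 ^ 21) * (2 : ℝ) ^ (((i : ℝ) + 1) * (δ / 2))) *
      ((2 : ℝ) ^ (e0 * i) * ((hh δ i : ℝ) / 2 ^ i * (2 : ℝ) ^ (-(1 / 10 ^ 18) * (i : ℝ)) +
      (2 : ℝ) ^ (-(1 / 2 + 1 / 10 ^ 5) * (i : ℝ))))
      ≤ (2 : ℝ) ^ (1 / 10 ^ 19 * (i : ℝ)) * ((2 : ℝ) ^ ((i : ℝ) / 10 ^ 21) * (2 * (2 : ℝ) ^ (δ / 2 * (i : ℝ)))) *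
      ((2 : ℝ) ^ (e0 * i) * ((2 : ℝ) ^ (-(1 / 2 + δ + 1 / 10 ^ 18) * (i : ℝ)) +
        (2 : ℝ) ^ (-(1 / 2 + δ + 1 / 10 ^ 18) * (i : ℝ)))) := by
        have n1 : 0 ≤ (hh δ i : ℝ) / 2 ^ i * (2 : ℝ) ^ (-(1 / 10 ^ 18) * (i : ℝ)) +
          (2 : ℝ) ^ (-(1 / 2 + 1 / 10 ^ 5) * (i : ℝ)) := by positivity
        gcongr
    _ = 4 * (2 : ℝ) ^ (1 / 10 ^ 19 * (i : ℝ) + (i : ℝ) / 10 ^ 21 + δ / 2 * (i : ℝ) + e0 * i +
          -(1 / 2 + δ + 1 / 10 ^ 18) * (i : ℝ)) := by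
        rw [r2, r2, r2, r2]
        ring
    _ ≤ 4 * (2 : ℝ) ^ (-(1 / 2 + δ / 2) * (i : ℝ) + -(8 / 10 ^ 19 * (i : ℝ))) := by
        refine mul_le_mul_of_nonneg_left (r2mono ?_) (by norm_num)
        unfold e0
        nlinarith
    _ = (4 * (2 : ℝ) ^ (-(8 / 10 ^ 19 * (i : ℝ)))) * (2 : ℝ) ^ (-(1 / 2 + δ / 2) * (i : ℝ)) := by
        rw [r2]
        ring
    _ ≤ (ε / (i : ℝ) ^ 40) * (2 : ℝ) ^ (-(1 / 2 + δ / 2) * (i : ℝ)) := by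
        refine mul_le_mul_of_nonneg_right ?_ (r2pos _).le
        rw [le_div_iff₀ (by positivity)]
        linarith
    _ = _ := by ring

/-- **KZ-SPC** -/
theorem t_SPC (h1 : S_DG) : S_SPC := by
  intro E ε hε
  obtain ⟨J, hJ⟩ := SPC_num E.δ E.hδ E.hδ' ε hε
  refine KZAll.imp (h1 E) 1 one_pos (max J (10 ^ 21)) ?_
  rintro η j V - - hj hEv hDG i k hi hk
  have hDG : DG1 E j V := hDG
  have hj21 : 10 ^ 21 ≤ j := (le_max_right _ _).trans hj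
  have hjJ : J ≤ i := ((le_max_left _ _).trans hj).trans hi
  have hle := cell_le E.hδ hk
  have h2 : ∀ n ∈ cell E.δ i k, n ≤ 2 ^ (i + 1) := fun n hn => by
    have := (mem_Ioc.1 hn).2
    exact this.trans hle
  have h3 : ∑ n ∈ cell E.δ i k, ∑ l ∈ n.divisors.filter (fun l : ℕ => (2 : ℝ) ^ ((i : ℝ) / 100) ≤ (l : ℝ)),
    ∑ r ∈ (n / l).divisors.filter (fun r : ℕ => (r : ℝ) < (2 : ℝ) ^ ((i : ℝ) / 10 ^ 6)), X3 E V j i l r (n / l / r) ≤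
      CI E.δ i * ∑ n ∈ (cell E.δ i k).filter (Rg j), SVe V ((2 : ℝ) ^ ((i : ℝ) / 100)) n := by
    rw [mul_sum, sum_filter]
    exact sum_le_sum fun n hn => point_bound hDG hEv.sub hj21 hi (cell_ne hn) (h2 n hn)
  refine h3.trans ?_
  have h4 := hEv.vl i (2 ^ i + k * hh E.δ i) (2 ^ i + (k + 1) * hh E.δ i) (by omega) (Nat.le_add_right _ _)
    (by nlinarith [hh_pos E.δ i]) (hle.trans (Nat.pow_le_pow_right two_pos (by omega))) (by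
      have e1 : ((2 ^ i + (k + 1) * hh E.δ i : ℕ) : ℝ) - ((2 ^ i + k * hh E.δ i : ℕ) : ℝ) = hh E.δ i := by
        push_cast
        ring
      rw [e1]
      exact hh_le_half E.hδ (E_half E) i)
  have e1 : ((2 ^ i + (k + 1) * hh E.δ i : ℕ) : ℝ) - ((2 ^ i + k * hh E.δ i : ℕ) : ℝ) = hh E.δ i := by
    push_cast
    ring
  rw [e1] at h4
  have hC : 0 ≤ CI E.δ i := by
    unfold CI
    positivity
  exact (mul_le_mul_of_nonneg_left h4 hC).trans (hJ i hjJ)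

end Pool.Agent.Q39.KZ
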