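import Pool.Agent.Q39.KZ.Base

/-!
Project KZ (helper18): the terms of the small part.
-/

set_option autoImplicit false

namespace Pool.Agent.Q39.KZ

open Finset Filter Topology MeasureTheory
open scoped Classical
open Pool.Agent.W76.MO (hh nc cell lp Rough hh_pos nc_mul cell_loc)
open Q236.CM (LP LP_one LP_mul LP_prime LP_nonneg LP_le LP_pow LP_mul_fun LP_div)
open Pool.Agent.Q18.KZ
open Pool.Agent.Q222.KZ (r2 r2n r2n' r2pos r2mono hh_le hh_le_half hh_ge E_half mem_cell)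

theorem pow_small (c ε : ℝ) (hc : 0 < c) (hε : 0 < ε) : ∃ J : ℕ, ∀ i : ℕ, J ≤ i →
    (2 : ℝ) ^ (-(c * (i : ℝ))) * (i : ℝ) ^ 40 ≤ ε := by
  have h1 := tendsto_rpow_mul_exp_neg_mul_atTop_nhds_zero 40 (Real.log 2 * c) (mul_pos (Real.log_pos one_lt_two) hc)
  have h2 := h1.comp (tendsto_natCast_atTop_atTop (R := ℝ))
  have h3 := h2.eventually_lt_const hε
  obtain ⟨J, hJ⟩ := eventually_atTop.1 h3
  refine ⟨J, fun i hi => ?_⟩
  have h4 := (hJ i hi).le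
  simp only [Function.comp_apply] at h4
  refine le_trans (le_of_eq ?_) h4
  rw [Real.rpow_def_of_pos two_pos, mul_comm]
  congr 1
  · exact_mod_cast (Real.rpow_natCast (i : ℝ) 40).symm
  · congr 1
    ring

/-- the number of prime factors with multiplicity -/
noncomputable def Om (n : ℕ) : ℕ := n.primeFactorsList.length

theorem Om_mul {m n : ℕ} (hm : m ≠ 0) (hn : n ≠ 0) : Om (m * n) = Om m + Om n := by
  unfold Om
  rw [(Nat.perm_primeFactorsList_mul hm hn).length_eq, List.length_append]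

theorem Om_eq (n : ℕ) : Om n = ∑ p ∈ n.primeFactors, n.factorization p := by
  unfold Om
  have h1 := ArithmeticFunction.cardFactors_apply (n := n)
  have h2 := ArithmeticFunction.cardFactors_eq_sum_factorization (n := n)
  rw [← h1, h2]
  rfl

theorem LP_smul (c : ℝ) (f : ℕ → ℝ) (n : ℕ) : LP (fun p => c * f p) n = c ^ Om n * LP f n := by
  unfold LP Om
  induction n.primeFactorsList with
  | nil => simp
  | cons a l ih =>
    rw [List.map_cons, List.prod_cons, ih, List.map_cons, List.prod_cons, List.length_cons, pow_succ]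
    ring

theorem LP_zero (f : ℕ → ℝ) {n p : ℕ} (hn : n ≠ 0) (hp : p.Prime) (hd : p ∣ n) (h0 : f p = 0) : LP f n = 0 := by
  rw [LP_div f hn hp hd, h0, zero_mul]

theorem LP_aV (V : ℕ → Bool) {l : ℕ} (hl : l ≠ 0) :
    LP (aV V) l = if Vn V l then (l : ℝ) ^ (-(1 / 2 : ℝ) - dd) else 0 := by
  split_ifs with h
  · refine le_antisymm ?_ ?_
    · rw [← LP_pow _ hl]
      refine LP_le _ _ (aV_nonneg V) hl fun p _ _ => ?_
      unfold aV
      split_ifs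
      · exact le_rfl
      · positivity
    · rw [← LP_pow _ hl]
      refine LP_le _ _ (fun p => by positivity) hl fun p hp hpl => ?_
      have : V p = true := h p (Nat.mem_primeFactors.2 ⟨hp, hpl, hl⟩)
      unfold aV
      rw [if_pos this]
  · unfold Vn at h
    push Not at h
    obtain ⟨p, hp, hV⟩ := h
    refine LP_zero _ hl (Nat.prime_of_mem_primeFactors hp) (Nat.dvd_of_mem_primeFactors hp) ?_
    unfold aV
    rw [if_neg (by simpa using hV)]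

/-- the facts of DG, for one pair `j, V` -/
def DG1 (E : KEnv) (j : ℕ) (V : ℕ → Bool) : Prop := ∀ p : ℕ, p.Prime →
  0 ≤ E.gu j p ∧ 0 ≤ E.ghn V j 0 p ∧ (∀ I : ℕ, 0 ≤ E.ghn V j I p ∧ E.ghn V j I p ≤ E.gh V j p) ∧
  E.gu j p + E.gh V j p ≤ (p : ℝ) ^ (-1 + 1 / 10 ^ 15 : ℝ) ∧
  (E.gu j p ≠ 0 → 2 ^ j < p ∧ E.gu j p ≤ (p : ℝ) ^ (-1 + E.δ / 2) * (KEnv.sc p : ℝ) ^ (-(38 : ℝ))) ∧
  ((p : ℝ) < (2 : ℝ) ^ ((j : ℝ) / 4) → E.gh V j p = 0)

/-- one term of the small part -/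
noncomputable def X3 (E : KEnv) (V : ℕ → Bool) (j i l r m : ℕ) : ℝ :=
  LP (fun p => 4 * aV V p) l * LP (fun p => 8 * ghs E V j i p) r * LP (fun p => 8 * gus E j i p) m

theorem X3_nonneg (E : KEnv) (V : ℕ → Bool) (j i l r m : ℕ) : 0 ≤ X3 E V j i l r m :=
  mul_nonneg (mul_nonneg (LP_nonneg _ (fun p => mul_nonneg (by norm_num) (aV_nonneg V p)) _)
    (LP_nonneg _ (fun p => mul_nonneg (by norm_num) (ghs_nonneg E V j i p)) _))
    (LP_nonneg _ (fun p => mul_nonneg (by norm_num) (gus_nonneg E j i p)) _)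

theorem le_of_gu {E : KEnv} {V : ℕ → Bool} {j p : ℕ} (h : DG1 E j V) (hp : p.Prime) (h0 : E.gu j p ≠ 0) :
    2 ^ (j / 10) ≤ p := by
  have h1 := ((h p hp).2.2.2.2.1 h0).1
  refine le_trans (Nat.pow_le_pow_right two_pos (Nat.div_le_self j 10)) h1.le

theorem le_of_gh {E : KEnv} {V : ℕ → Bool} {j p : ℕ} (h : DG1 E j V) (hp : p.Prime) (h0 : E.gh V j p ≠ 0) :
    2 ^ (j / 10) ≤ p := by
  by_contra hlt
  push Not at hlt
  apply h0
  refine (h p hp).2.2.2.2.2 ?_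
  have h1 : (p : ℝ) < ((2 ^ (j / 10) : ℕ) : ℝ) := by exact_mod_cast hlt
  refine lt_of_lt_of_le h1 ?_
  rw [r2n]
  refine r2mono ?_
  have h2 : ((j / 10 : ℕ) : ℝ) ≤ (j : ℝ) / 10 := Nat.cast_div_le
  have h3 : (0 : ℝ) ≤ j := Nat.cast_nonneg j
  linarith

theorem X3_zero {E : KEnv} {V : ℕ → Bool} {j i l r m : ℕ} (h : DG1 E j V)
    (hV : ∀ p : ℕ, V p = true → p.Prime ∧ 2 ^ (j / 10) ≤ p) (hl : l ≠ 0) (hr : r ≠ 0) (hm : m ≠ 0)
    (hR : ¬ Rg j (l * r * m)) : X3 E V j i l r m = 0 := by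
  unfold Rg at hR
  push Not at hR
  obtain ⟨p, hp, hd, hlt⟩ := hR (mul_ne_zero (mul_ne_zero hl hr) hm)
  unfold X3
  rcases (Nat.Prime.dvd_mul hp).1 hd with hd | hd
  · rcases (Nat.Prime.dvd_mul hp).1 hd with hd | hd
    · rw [LP_zero _ hl hp hd, zero_mul, zero_mul]
      unfold aV
      rw [if_neg, mul_zero]
      intro hVp
      exact absurd (hV p hVp).2 (not_le.2 hlt)
    · rw [LP_zero (fun p => 8 * ghs E V j i p) hr hp hd, mul_zero, zero_mul]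
      have h0 : E.gh V j p = 0 := by
        by_contra h0
        exact absurd (le_of_gh h hp h0) (not_le.2 hlt)
      unfold ghs
      rw [h0]
      simp
  · rw [LP_zero (fun p => 8 * gus E j i p) hm hp hd, mul_zero]
    have h0 : E.gu j p = 0 := by
      by_contra h0
      exact absurd (le_of_gu h hp h0) (not_le.2 hlt)
    unfold gus
    rw [h0]
    simp

theorem gus_le_pow {E : KEnv} {V : ℕ → Bool} {j i p : ℕ} (h : DG1 E j V) (hj : 1 ≤ j) (hp : p.Prime) :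
    gus E j i p ≤ (p : ℝ) ^ (-1 + E.δ / 2) := by
  refine (gus_le E j i p).trans ?_
  by_cases h0 : E.gu j p = 0
  · rw [h0]
    positivity
  · obtain ⟨h1, h2⟩ := (h p hp).2.2.2.2.1 h0
    refine h2.trans ?_
    have h3 : 1 ≤ KEnv.sc p := by
      unfold KEnv.sc
      have h4 : 2 ^ 1 ≤ 2 ^ j := Nat.pow_le_pow_right two_pos hj
      exact (Nat.le_log_iff_pow_le one_lt_two (by omega)).2 (by omega)
    have h5 : (KEnv.sc p : ℝ) ^ (-(38 : ℝ)) ≤ 1 :=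
      Real.rpow_le_one_of_one_le_of_nonpos (by exact_mod_cast h3) (by norm_num)
    exact mul_le_of_le_one_right (by positivity) h5

theorem ghs_le_pow {E : KEnv} {V : ℕ → Bool} {j i p : ℕ} (h : DG1 E j V) (hp : p.Prime) :
    ghs E V j i p ≤ (p : ℝ) ^ (-1 + 1 / 10 ^ 15 : ℝ) := by
  have h1 := (h p hp).2.2.2.1
  have h2 := (h p hp).1
  have h3 := ghs_le E V j i p
  linarith

theorem X3_le {E : KEnv} {V : ℕ → Bool} {j i l r m : ℕ} (h : DG1 E j V) (hj : 1 ≤ j)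
    (hl : l ≠ 0) (hr : r ≠ 0) (hm : m ≠ 0) :
    X3 E V j i l r m ≤ (8 : ℝ) ^ Om (l * r * m) * ((if Vn V l then (l : ℝ) ^ (-(1 / 2 : ℝ) - dd) else 0) *
      ((r : ℝ) ^ (-1 + 1 / 10 ^ 15 : ℝ) * (m : ℝ) ^ (-1 + E.δ / 2))) := by
  unfold X3
  rw [LP_smul, LP_smul, LP_smul, LP_aV V hl, Om_mul (mul_ne_zero hl hr) hm, Om_mul hl hr]
  have h1 : LP (fun p => ghs E V j i p) r ≤ (r : ℝ) ^ (-1 + 1 / 10 ^ 15 : ℝ) := by
    rw [← LP_pow _ hr]
    exact LP_le _ _ (ghs_nonneg E V j i) hr fun p hp _ => ghs_le_pow h hp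
  have h2 : LP (fun p => gus E j i p) m ≤ (m : ℝ) ^ (-1 + E.δ / 2) := by
    rw [← LP_pow _ hm]
    exact LP_le _ _ (gus_nonneg E j i) hm fun p hp _ => gus_le_pow h hj hp
  have h3 : (4 : ℝ) ^ Om l ≤ 8 ^ Om l := pow_le_pow_left₀ (by norm_num) (by norm_num) _
  set a : ℝ := if Vn V l then (l : ℝ) ^ (-(1 / 2 : ℝ) - dd) else 0 with ha
  have ha0 : 0 ≤ a := by
    rw [ha]
    split_ifs
    · positivity
    · exact le_rfl
  have n1 : 0 ≤ LP (fun p => ghs E V j i p) r := LP_nonneg _ (ghs_nonneg E V j i) _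
  have n2 : 0 ≤ LP (fun p => gus E j i p) m := LP_nonneg _ (gus_nonneg E j i) _
  calc (4 : ℝ) ^ Om l * a * (8 ^ Om r * LP (fun p => ghs E V j i p) r) * (8 ^ Om m * LP (fun p => gus E j i p) m)
      ≤ (8 : ℝ) ^ Om l * a * (8 ^ Om r * (r : ℝ) ^ (-1 + 1 / 10 ^ 15 : ℝ)) * (8 ^ Om m * (m : ℝ) ^ (-1 + E.δ / 2)) := by
        gcongr
    _ = _ := by
        rw [pow_add, pow_add]
        ring

theorem Om_small {j n i : ℕ} (hn : Rg j n) (hni : n ≤ 2 ^ (i + 1)) (hj : 10 ^ 21 ≤ j) (hi : 1 ≤ i) :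
    (16 : ℝ) ^ Om n ≤ (2 : ℝ) ^ (1 / 10 ^ 19 * (i : ℝ)) := by
  have h1 := Pool.Agent.Q265.KZ.sum_fact_le hn hni
  rw [← Om_eq] at h1
  have h2 : 10 ^ 20 ≤ j / 10 := by omega
  have h3 : 10 ^ 20 * Om n ≤ i + 1 := le_trans (Nat.mul_le_mul_right _ h2) h1
  have h4 : (10 : ℝ) ^ 20 * Om n ≤ i + 1 := by exact_mod_cast h3
  have h5 : (1 : ℝ) ≤ i := by exact_mod_cast hi
  have e1 : (16 : ℝ) ^ Om n = (2 : ℝ) ^ (4 * (Om n : ℝ)) := by
    rw [show (16 : ℝ) = 2 ^ 4 by norm_num, ← pow_mul, ← Real.rpow_natCast]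
    push_cast
    rfl
  rw [e1]
  refine r2mono ?_
  nlinarith

end Pool.Agent.Q39.KZ
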